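import Pool.Agent.LibAvg32.Main

open Finset

namespace Pool.Agent.LibAvg32

section

variable {G : Type*} [Group G] [Fintype G]

/-- The nontrivial p-elements. -/
noncomputable def Z (G : Type*) [Group G] [Fintype G] (p : ℕ) : Finset G := by
  classical
  exact univ.filter fun z => (orderOf z).primeFactors = {p}

theorem mem_Z {p : ℕ} {z : G} : z ∈ Z G p ↔ (orderOf z).primeFactors = {p} := by
  classical
  unfold Z
  simp

/-- The elements whose order is divisible by p and by another prime. -/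
noncomputable def X (G : Type*) [Group G] [Fintype G] (p : ℕ) : Finset G := by
  classical
  exact univ.filter fun x => p ∣ orderOf x ∧ 2 ≤ #(orderOf x).primeFactors

theorem mem_X {p : ℕ} {x : G} : x ∈ X G p ↔ p ∣ orderOf x ∧ 2 ≤ #(orderOf x).primeFactors := by
  classical
  unfold X
  simp

theorem exists_pow {p : ℕ} {z : G} (hz : z ∈ Z G p) : ∃ k, k ≠ 0 ∧ orderOf z = p ^ k := by
  rw [mem_Z] at hz
  have h1 : orderOf z ≠ 0 := (orderOf_pos z).ne'
  have h2 := Nat.eq_prime_pow_of_unique_prime_dvd h1 (p := p) (by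
    intro d hd hdz
    have h3 : d ∈ (orderOf z).primeFactors := Nat.mem_primeFactors.2 ⟨hd, hdz, h1⟩
    rw [hz] at h3
    exact Finset.mem_singleton.1 h3)
  refine ⟨_, ?_, h2⟩
  intro h
  rw [h, pow_zero] at h2
  rw [h2] at hz
  simp at hz

theorem exists_exp (p : ℕ) [hp : Fact p.Prime] :
    ∃ e : ℕ, ∀ z ∈ Z G p, ∀ y ∈ Y p z, (z * y) ^ e = z := by
  set N := Fintype.card G with hN
  have hN0 : N ≠ 0 := Fintype.card_ne_zero
  have hco : Nat.Coprime (p ^ N.factorization p) (N / p ^ N.factorization p) :=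
    (Nat.coprime_ordCompl hp.out hN0).pow_left _
  obtain ⟨e, he1, he2⟩ := Nat.chineseRemainder hco 1 0
  refine ⟨e, fun z hz y hy => ?_⟩
  obtain ⟨k, hk, hzk⟩ := exists_pow hz
  obtain ⟨hc, hy1, hyp⟩ := mem_Y.1 hy
  have hprod : p ^ N.factorization p * (N / p ^ N.factorization p) = N :=
    Nat.ordProj_mul_ordCompl_eq_self N p
  have h1 : orderOf z ∣ p ^ N.factorization p := by
    have h2 : orderOf z ∣ N := orderOf_dvd_card
    rw [hzk] at h2 ⊢
    exact (Nat.Prime.pow_dvd_iff_dvd_ordProj hp.out hN0).1 h2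
  have h2 : orderOf y ∣ N / p ^ N.factorization p := by
    have h3 : orderOf y ∣ N := orderOf_dvd_card
    rw [← hprod] at h3
    have h4 : Nat.Coprime (orderOf y) (p ^ N.factorization p) :=
      ((Nat.Prime.coprime_iff_not_dvd hp.out).2 hyp).symm.pow_right _
    exact h4.dvd_of_dvd_mul_left h3
  have hz1 : z ^ e = z := by
    have h3 : z ^ e = z ^ 1 := pow_eq_pow_iff_modEq.2 (he1.of_dvd h1)
    rw [h3, pow_one]
  have hy2 : y ^ e = 1 := by
    apply orderOf_dvd_iff_pow_eq_one.1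
    exact h2.trans ((Nat.modEq_zero_iff_dvd).1 he2)
  rw [(show Commute z y from hc).mul_pow, hz1, hy2, mul_one]

theorem mul_mem_X {p : ℕ} [hp : Fact p.Prime] {z y : G} (hz : z ∈ Z G p) (hy : y ∈ Y p z) :
    z * y ∈ X G p := by
  obtain ⟨k, hk, hzk⟩ := exists_pow hz
  obtain ⟨hc, hy1, hyp⟩ := mem_Y.1 hy
  have hco : Nat.Coprime (orderOf z) (orderOf y) := by
    rw [hzk]
    exact ((Nat.Prime.coprime_iff_not_dvd hp.out).2 hyp).pow_left k
  have h1 := (show Commute z y from hc).orderOf_mul_eq_mul_orderOf_of_coprime hco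
  obtain ⟨q, hq, hqy⟩ := Nat.exists_prime_and_dvd
    (show orderOf y ≠ 1 from fun h => hy1 (orderOf_eq_one_iff.1 h))
  have hpz : p ∣ orderOf z := by
    rw [hzk]
    exact dvd_pow_self p hk
  have hpq : p ≠ q := by
    rintro rfl
    exact hyp hqy
  rw [mem_X, h1]
  refine ⟨hpz.mul_right _, ?_⟩
  have h0 : orderOf z * orderOf y ≠ 0 := (mul_pos (orderOf_pos z) (orderOf_pos y)).ne'
  rw [← Finset.card_pair hpq]
  apply Finset.card_le_card
  intro r hr
  rw [Finset.mem_insert, Finset.mem_singleton] at hr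
  rcases hr with rfl | rfl
  · exact Nat.mem_primeFactors.2 ⟨hp.out, hpz.mul_right _, h0⟩
  · exact Nat.mem_primeFactors.2 ⟨hq, hqy.mul_left _, h0⟩

theorem sum_card_Y_le (p : ℕ) [hp : Fact p.Prime] : ∑ z ∈ Z G p, #(Y p z) ≤ #(X G p) := by
  classical
  rw [← Finset.card_sigma]
  obtain ⟨e, he⟩ := exists_exp (G := G) p
  apply Finset.card_le_card_of_injOn (fun s : (_ : G) × G => s.1 * s.2)
  · rintro ⟨z, y⟩ h
    have h' := Finset.mem_sigma.1 (Finset.mem_coe.1 h)
    exact Finset.mem_coe.2 (mul_mem_X h'.1 h'.2)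
  · rintro ⟨z, y⟩ h ⟨z', y'⟩ h' heq
    have h1 := Finset.mem_sigma.1 (Finset.mem_coe.1 h)
    have h2 := Finset.mem_sigma.1 (Finset.mem_coe.1 h')
    have h3 : z * y = z' * y' := heq
    have h4 : z = z' := by
      have h5 := he z h1.1 y h1.2
      rw [h3, he z' h2.1 y' h2.2] at h5
      exact h5.symm
    subst h4
    have h6 : y = y' := mul_left_cancel h3
    subst h6
    rfl

end

/-! ### A numerical estimate -/

theorem pow_three_bound (w : ℕ) (hw : 2 ≤ w) : 11 + 2 * w ≤ 5 * 3 ^ (w - 1) ∧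
    17 + 2 * w ≤ 7 * 3 ^ (w - 1) := by
  induction w, hw using Nat.le_induction with
  | base => norm_num
  | succ n hn ih =>
    have h1 : 3 ^ (n + 1 - 1) = 3 * 3 ^ (n - 1) := by
      rw [← pow_succ']
      congr 1
      omega
    rw [h1]
    omega

theorem le_of_card {m c : ℕ} (hm0 : m ≠ 0) (hm : Odd m) (hw : 2 ≤ #m.primeFactors)
    (hc : ∀ r ∈ m.primeFactors, r ≠ 3 → c ≤ r) : c * 3 ^ (#m.primeFactors - 1) ≤ m := by
  classical
  have h3 : ∀ r ∈ m.primeFactors, 3 ≤ r := by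
    intro r hr
    obtain ⟨h1, h2, _⟩ := Nat.mem_primeFactors.1 hr
    have h4 := h1.two_le
    have h5 : Odd r := hm.of_dvd_nat h2
    obtain ⟨k, hk⟩ := h5
    omega
  have hex : ∃ r ∈ m.primeFactors, r ≠ 3 := by
    by_contra h
    push Not at h
    have h1 : m.primeFactors ⊆ {3} := fun r hr => Finset.mem_singleton.2 (h r hr)
    have h2 := Finset.card_le_card h1
    rw [Finset.card_singleton] at h2
    omega
  obtain ⟨r, hr, hr3⟩ := hex
  have h1 : ∏ q ∈ m.primeFactors, q ≤ m :=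
    Nat.le_of_dvd (Nat.pos_of_ne_zero hm0) (Nat.prod_primeFactors_dvd m)
  rw [← Finset.mul_prod_erase _ _ hr] at h1
  refine le_trans ?_ h1
  apply Nat.mul_le_mul (hc r hr hr3)
  rw [← Finset.card_erase_of_mem hr]
  exact Finset.pow_card_le_prod _ _ _ fun q hq => h3 q (Finset.mem_of_mem_erase hq)

theorem le_five {m : ℕ} (hm0 : m ≠ 0) (hm : Odd m) (hw : 2 ≤ #m.primeFactors) :
    11 + 2 * #m.primeFactors ≤ m := by
  refine (pow_three_bound _ hw).1.trans (le_of_card hm0 hm hw ?_)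
  intro r hr hr3
  obtain ⟨h1, h2, _⟩ := Nat.mem_primeFactors.1 hr
  have h4 := h1.two_le
  have h5 : Odd r := hm.of_dvd_nat h2
  obtain ⟨k, hk⟩ := h5
  omega

theorem le_seven {m : ℕ} (hm0 : m ≠ 0) (hm : Odd m) (hw : 2 ≤ #m.primeFactors)
    (h5 : ¬ 5 ∣ m) : 17 + 2 * #m.primeFactors ≤ m := by
  refine (pow_three_bound _ hw).2.trans (le_of_card hm0 hm hw ?_)
  intro r hr hr3
  obtain ⟨h1, h2, _⟩ := Nat.mem_primeFactors.1 hr
  have h4 := h1.two_le
  have h6 : Odd r := hm.of_dvd_nat h2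
  have h7 : r ≠ 5 := by
    rintro rfl
    exact h5 h2
  obtain ⟨k, hk⟩ := h6
  omega

end Pool.Agent.LibAvg32
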