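import Mathlib

open Finset

namespace Pool.Agent.LibAvg32

/-- The nonabelian group of order 75: triples (a, b, i) with (a, b) in (Z/5)^2 and i in Z/3, where
the generator of Z/3 acts on (Z/5)^2 by (a, b) ↦ (-b, a - b). -/
@[ext] structure F75 where
  a : ZMod 5
  b : ZMod 5
  i : ZMod 3
deriving DecidableEq

namespace F75

/-- The action of i in Z/3 on (Z/5)^2, first coordinate. -/
def actA (i : ZMod 3) (a b : ZMod 5) : ZMod 5 :=
  if i = 0 then a else if i = 1 then -b else b - a

/-- The action of i in Z/3 on (Z/5)^2, second coordinate. -/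
def actB (i : ZMod 3) (a b : ZMod 5) : ZMod 5 :=
  if i = 0 then b else if i = 1 then a - b else -a

theorem actA_add : ∀ (i : ZMod 3) (a b c d : ZMod 5),
    actA i (a + c) (b + d) = actA i a b + actA i c d := by
  intro i a b c d
  unfold actA
  split_ifs <;> ring

theorem actB_add : ∀ (i : ZMod 3) (a b c d : ZMod 5),
    actB i (a + c) (b + d) = actB i a b + actB i c d := by
  intro i a b c d
  unfold actB
  split_ifs <;> ring

theorem actA_act : ∀ (i j : ZMod 3) (a b : ZMod 5),
    actA i (actA j a b) (actB j a b) = actA (i + j) a b := by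
  decide +kernel

theorem actB_act : ∀ (i j : ZMod 3) (a b : ZMod 5),
    actB i (actA j a b) (actB j a b) = actB (i + j) a b := by
  decide +kernel

theorem actA_zero (a b : ZMod 5) : actA 0 a b = a := rfl
theorem actB_zero (a b : ZMod 5) : actB 0 a b = b := rfl

instance : Mul F75 := ⟨fun x y => ⟨x.a + actA x.i y.a y.b, x.b + actB x.i y.a y.b, x.i + y.i⟩⟩
instance : One F75 := ⟨⟨0, 0, 0⟩⟩
instance : Inv F75 := ⟨fun x => ⟨-actA (-x.i) x.a x.b, -actB (-x.i) x.a x.b, -x.i⟩⟩

theorem mul_def (x y : F75) :
    x * y = ⟨x.a + actA x.i y.a y.b, x.b + actB x.i y.a y.b, x.i + y.i⟩ := rfl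
theorem one_def : (1 : F75) = ⟨0, 0, 0⟩ := rfl
theorem inv_def (x : F75) : x⁻¹ = ⟨-actA (-x.i) x.a x.b, -actB (-x.i) x.a x.b, -x.i⟩ := rfl

instance : Group F75 :=
  Group.ofLeftAxioms
    (by
      rintro x y z
      rw [mul_def, mul_def, mul_def, mul_def]
      ext
      · simp only [actA_add, actA_act, add_assoc]
      · simp only [actB_add, actB_act, add_assoc]
      · simp only [add_assoc])
    (by
      rintro ⟨a, b, i⟩
      rw [mul_def, one_def]
      ext
      · simp [actA_zero]
      · simp [actB_zero]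
      · simp)
    (by
      rintro ⟨a, b, i⟩
      rw [mul_def, inv_def, one_def]
      ext
      · simp
      · simp
      · simp)

/-- The elements as a product. -/
def equivProd : F75 ≃ ZMod 5 × ZMod 5 × ZMod 3 where
  toFun x := (x.a, x.b, x.i)
  invFun x := ⟨x.1, x.2.1, x.2.2⟩
  left_inv _ := rfl
  right_inv _ := rfl

instance : Fintype F75 := Fintype.ofEquiv _ equivProd.symm

theorem card_F75 : Fintype.card F75 = 75 := by
  rw [Fintype.card_congr equivProd]
  rfl

theorem card_three : #{x : F75 | x * (x * x) = 1} = 51 := by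
  decide +kernel

theorem card_five : #{x : F75 | x * (x * (x * (x * x))) = 1} = 25 := by
  decide +kernel

theorem pow_fifteen : ∀ x : F75, x * (x * x) = 1 ∨ x * (x * (x * (x * x))) = 1 := by
  decide +kernel

end F75

end Pool.Agent.LibAvg32
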