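import Mathlib

open Finset

namespace Pool.Agent.LibAvg32

/-- The nonabelian group of order 21: pairs (a, i) with a in Z/7 and i in Z/3, where the generator
of Z/3 acts on Z/7 by a ↦ 2 a. -/
@[ext] structure F21 where
  a : ZMod 7
  i : ZMod 3
deriving DecidableEq

namespace F21

/-- The action of i in Z/3 on Z/7. -/
def act (i : ZMod 3) (a : ZMod 7) : ZMod 7 :=
  if i = 0 then a else if i = 1 then 2 * a else 4 * a

theorem act_add : ∀ (i : ZMod 3) (a b : ZMod 7), act i (a + b) = act i a + act i b := by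
  decide +kernel

theorem act_act : ∀ (i j : ZMod 3) (a : ZMod 7), act i (act j a) = act (i + j) a := by
  decide +kernel

theorem act_zero (a : ZMod 7) : act 0 a = a := rfl

instance : Mul F21 := ⟨fun x y => ⟨x.a + act x.i y.a, x.i + y.i⟩⟩
instance : One F21 := ⟨⟨0, 0⟩⟩
instance : Inv F21 := ⟨fun x => ⟨-act (-x.i) x.a, -x.i⟩⟩

theorem mul_def (x y : F21) : x * y = ⟨x.a + act x.i y.a, x.i + y.i⟩ := rfl
theorem one_def : (1 : F21) = ⟨0, 0⟩ := rfl
theorem inv_def (x : F21) : x⁻¹ = ⟨-act (-x.i) x.a, -x.i⟩ := rfl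

instance : Group F21 :=
  Group.ofLeftAxioms
    (by
      rintro x y z
      rw [mul_def, mul_def, mul_def, mul_def]
      ext
      · simp only [act_add, act_act, add_assoc]
      · simp only [add_assoc])
    (by
      rintro ⟨a, i⟩
      rw [mul_def, one_def]
      ext
      · simp [act_zero]
      · simp)
    (by
      rintro ⟨a, i⟩
      rw [mul_def, inv_def, one_def]
      ext
      · simp
      · simp)

/-- The elements as a product. -/
def equivProd : F21 ≃ ZMod 7 × ZMod 3 where
  toFun x := (x.a, x.i)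
  invFun x := ⟨x.1, x.2⟩
  left_inv _ := rfl
  right_inv _ := rfl

instance : Fintype F21 := Fintype.ofEquiv _ equivProd.symm

theorem card_F21 : Fintype.card F21 = 21 := by
  rw [Fintype.card_congr equivProd]
  rfl

theorem cases21 : ∀ x : F21, x = 1 ∨ (x ≠ 1 ∧ x * (x * x) = 1) ∨
    (x * (x * x) ≠ 1 ∧ x * (x * (x * (x * (x * (x * x))))) = 1) := by
  decide +kernel

theorem orderOf_eq (x : F21) : orderOf x =
    if x = 1 then 1 else if x * (x * x) = 1 then 3 else 7 := by
  have h3 : x ^ 3 = x * (x * x) := by rw [pow_succ', pow_two]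
  have h7 : x ^ 7 = x * (x * (x * (x * (x * (x * x))))) := by
    rw [pow_succ', pow_succ', pow_succ', pow_succ', pow_succ', pow_two]
  rcases cases21 x with h | ⟨h, h'⟩ | ⟨h, h'⟩
  · rw [h, if_pos rfl, orderOf_one]
  · rw [if_neg h, if_pos h']
    have : Fact (Nat.Prime 3) := ⟨Nat.prime_three⟩
    exact orderOf_eq_prime (h3.trans h') h
  · have h1 : x ≠ 1 := by
      rintro rfl
      exact h (by rw [mul_one, mul_one])
    rw [if_neg h1, if_neg h]
    have : Fact (Nat.Prime 7) := ⟨by norm_num⟩
    exact orderOf_eq_prime (h7.trans h') h1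

theorem sum_F21 : ∑ x : F21, orderOf x = 85 := by
  rw [Finset.sum_congr rfl fun x _ => orderOf_eq x]
  decide +kernel

end F21

theorem sum_coprime_prod {A B : Type*} [Group A] [Group B] [Fintype A] [Fintype B]
    (h : Nat.Coprime (Fintype.card A) (Fintype.card B)) :
    ∑ x : A × B, orderOf x = (∑ a : A, orderOf a) * ∑ b : B, orderOf b := by
  rw [Fintype.sum_prod_type, Finset.sum_mul]
  refine Finset.sum_congr rfl fun a _ => ?_
  rw [Finset.mul_sum]
  refine Finset.sum_congr rfl fun b _ => ?_
  rw [Prod.orderOf_mk]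
  exact ((h.coprime_dvd_left orderOf_dvd_card).coprime_dvd_right orderOf_dvd_card).lcm_eq_mul

theorem sum_C5 : ∑ x : Multiplicative (ZMod 5), orderOf x = 21 := by
  have h : ∀ x : Multiplicative (ZMod 5), orderOf x = if x = 1 then 1 else 5 := by
    intro x
    by_cases hx : x = 1
    · rw [hx, if_pos rfl, orderOf_one]
    · rw [if_neg hx]
      have : Fact (Nat.Prime 5) := ⟨Nat.prime_five⟩
      refine orderOf_eq_prime ?_ hx
      revert x
      decide +kernel
  rw [Finset.sum_congr rfl fun x _ => h x]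
  decide +kernel

/-- The group of order 105. -/
abbrev G105 : Type := Multiplicative (ZMod 5) × F21

theorem card_G105 : Fintype.card G105 = 105 := by
  rw [Fintype.card_prod, F21.card_F21, Fintype.card_multiplicative, ZMod.card]

theorem sum_G105 : ∑ x : G105, orderOf x = 1785 := by
  rw [sum_coprime_prod, sum_C5, F21.sum_F21]
  rw [F21.card_F21, Fintype.card_multiplicative, ZMod.card]
  norm_num

end Pool.Agent.LibAvg32
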