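import Pool.Agent.LibAvg32.Ex

open Finset

namespace Pool.Agent.LibAvg32

theorem card_pow_prod {A B : Type*} [Group A] [Group B] [Fintype A] [Fintype B] [DecidableEq A]
    [DecidableEq B] (n : ℕ) :
    #{x : A × B | x ^ n = 1} = #{a : A | a ^ n = 1} * #{b : B | b ^ n = 1} := by
  rw [← Finset.card_product]
  congr 1
  ext ⟨a, b⟩
  simp [Prod.ext_iff]

/-- In a group of exponent dividing 15 the order is given by three indicator functions. -/
theorem orderOf_fifteen {G : Type*} [Group G] [DecidableEq G] (x : G) (hx : x ^ 15 = 1) :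
    (orderOf x : ℤ) = 15 - (if x ^ 3 = 1 then 12 else 0) - (if x ^ 5 = 1 then 10 else 0) +
      (if x = 1 then 8 else 0) := by
  have h1 : orderOf x ∣ 15 := orderOf_dvd_of_pow_eq_one hx
  have h2 : orderOf x ∈ Nat.divisors 15 := Nat.mem_divisors.2 ⟨h1, by norm_num⟩
  have h3 : Nat.divisors 15 = {1, 3, 5, 15} := by decide
  rw [h3] at h2
  simp only [← orderOf_dvd_iff_pow_eq_one, ← orderOf_eq_one_iff (x := x)]
  simp only [Finset.mem_insert, Finset.mem_singleton] at h2
  rcases h2 with h | h | h | h <;> rw [h] <;> norm_num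

theorem sum_fifteen {G : Type*} [Group G] [Fintype G] [DecidableEq G] (hG : ∀ x : G, x ^ 15 = 1) :
    ∑ x : G, (orderOf x : ℤ) = 15 * Fintype.card G - 12 * #{x : G | x ^ 3 = 1} -
      10 * #{x : G | x ^ 5 = 1} + 8 := by
  rw [Finset.sum_congr rfl fun x _ => orderOf_fifteen x (hG x)]
  rw [Finset.sum_add_distrib, Finset.sum_sub_distrib, Finset.sum_sub_distrib]
  simp only [← Finset.sum_filter, Finset.sum_const, Finset.card_univ, nsmul_eq_mul]
  have h1 : (univ.filter fun x : G => x = 1) = {1} := by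
    ext x
    simp
  rw [h1]
  simp
  ring

/-- The group of order 3375. -/
abbrev G3375 : Type :=
  Multiplicative (ZMod 5) × (Multiplicative (ZMod 3) × Multiplicative (ZMod 3)) × F75

theorem card_G3375 : Fintype.card G3375 = 3375 := by
  rw [Fintype.card_prod, Fintype.card_prod, Fintype.card_prod, F75.card_F75,
    Fintype.card_multiplicative, Fintype.card_multiplicative, ZMod.card, ZMod.card]

theorem c5_three : #{x : Multiplicative (ZMod 5) | x ^ 3 = 1} = 1 := by
  decide +kernel

theorem c5_five : #{x : Multiplicative (ZMod 5) | x ^ 5 = 1} = 5 := by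
  decide +kernel

theorem c3_three : #{x : Multiplicative (ZMod 3) | x ^ 3 = 1} = 3 := by
  decide +kernel

theorem c3_five : #{x : Multiplicative (ZMod 3) | x ^ 5 = 1} = 1 := by
  decide +kernel

theorem f75_pow_three (x : F75) : x ^ 3 = x * (x * x) := by
  rw [pow_succ', pow_two]

theorem f75_pow_five (x : F75) : x ^ 5 = x * (x * (x * (x * x))) := by
  rw [pow_succ', pow_succ', pow_succ', pow_two]

theorem f75_three : #{x : F75 | x ^ 3 = 1} = 51 := by
  simp only [f75_pow_three]
  exact F75.card_three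

theorem f75_five : #{x : F75 | x ^ 5 = 1} = 25 := by
  simp only [f75_pow_five]
  exact F75.card_five

theorem f75_fifteen (x : F75) : x ^ 15 = 1 := by
  rcases F75.pow_fifteen x with h | h
  · rw [← f75_pow_three] at h
    have h1 : x ^ 15 = (x ^ 3) ^ 5 := by rw [← pow_mul]
    rw [h1, h, one_pow]
  · rw [← f75_pow_five] at h
    have h1 : x ^ 15 = (x ^ 5) ^ 3 := by rw [← pow_mul]
    rw [h1, h, one_pow]

theorem g_fifteen (x : G3375) : x ^ 15 = 1 := by
  obtain ⟨a, ⟨b, c⟩, d⟩ := x
  have ha : ∀ a : Multiplicative (ZMod 5), a ^ 15 = 1 := by decide +kernel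
  have hb : ∀ a : Multiplicative (ZMod 3), a ^ 15 = 1 := by decide +kernel
  ext
  · simp [ha]
  · simp [hb]
  · simp [hb]
  all_goals simp [f75_fifteen]

theorem sum_G3375 : ∑ x : G3375, (orderOf x : ℤ) = 43875 := by
  rw [sum_fifteen g_fifteen, card_G3375]
  rw [card_pow_prod, card_pow_prod, card_pow_prod, card_pow_prod, card_pow_prod, card_pow_prod, c5_three, c5_five, c3_three,
    c3_five, f75_three, f75_five]
  norm_num

end Pool.Agent.LibAvg32
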