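import Pool.Agent.LibAvg32.Count

open Finset

namespace Pool.Agent.LibAvg32

section

variable {G : Type*} [Group G] [Fintype G]

theorem pointwise [DecidableEq G] (s : ℤ)
    (hs : ∀ x : G, 2 ≤ #(orderOf x).primeFactors →
      11 + 2 * (#(orderOf x).primeFactors : ℤ) + s ≤ orderOf x) (x : G) :
    (if x = 1 then (-10 : ℤ) else 0) +
      ∑ p ∈ (Fintype.card G).primeFactors, ((if x ∈ Z G p then (orderOf x : ℤ) - 11 else 0) +
        (if x ∈ X G p then (2 : ℤ) else 0)) +
      (if 2 ≤ #(orderOf x).primeFactors then s else 0) ≤ (orderOf x : ℤ) - 11 := by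
  classical
  have hN0 : Fintype.card G ≠ 0 := Fintype.card_ne_zero
  have hsub : (orderOf x).primeFactors ⊆ (Fintype.card G).primeFactors :=
    Nat.primeFactors_mono orderOf_dvd_card hN0
  rw [Finset.sum_add_distrib]
  simp only [mem_Z, mem_X]
  rcases Nat.lt_or_ge (#(orderOf x).primeFactors) 2 with hw | hw
  · have hX : ∀ p ∈ (Fintype.card G).primeFactors,
        (if p ∣ orderOf x ∧ 2 ≤ #(orderOf x).primeFactors then (2 : ℤ) else 0) = 0 := by
      intro p _
      rw [if_neg]
      omega
    rw [Finset.sum_congr rfl hX, Finset.sum_const_zero, if_neg (not_le.2 hw)]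
    rcases Nat.lt_or_ge (#(orderOf x).primeFactors) 1 with h0 | h1
    · have h2 : (orderOf x).primeFactors = ∅ := Finset.card_eq_zero.1 (by omega)
      have h3 : x = 1 := by
        rcases Nat.primeFactors_eq_empty.1 h2 with h | h
        · exact absurd h (orderOf_pos x).ne'
        · exact orderOf_eq_one_iff.1 h
      have hZ : ∀ p ∈ (Fintype.card G).primeFactors,
          (if (orderOf x).primeFactors = {p} then (orderOf x : ℤ) - 11 else 0) = 0 := by
        intro p _
        rw [h2, if_neg]
        exact (Finset.singleton_ne_empty p).symm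
      rw [Finset.sum_congr rfl hZ, Finset.sum_const_zero, if_pos h3, h3, orderOf_one]
      norm_num
    · obtain ⟨q, hq⟩ := Finset.card_eq_one.1 (show #(orderOf x).primeFactors = 1 by omega)
      have hqS : q ∈ (Fintype.card G).primeFactors := hsub (by rw [hq]; simp)
      have hx : x ≠ 1 := by
        rintro rfl
        rw [orderOf_one] at hq
        simp at hq
      have hZ : ∀ p ∈ (Fintype.card G).primeFactors,
          (if (orderOf x).primeFactors = {p} then (orderOf x : ℤ) - 11 else 0) =
            if q = p then (orderOf x : ℤ) - 11 else 0 := by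
        intro p _
        rw [hq]
        simp only [Finset.singleton_inj]
      rw [Finset.sum_congr rfl hZ, Finset.sum_ite_eq, if_pos hqS, if_neg hx]
      simp
  · have hZ : ∀ p ∈ (Fintype.card G).primeFactors,
        (if (orderOf x).primeFactors = {p} then (orderOf x : ℤ) - 11 else 0) = 0 := by
      intro p _
      rw [if_neg]
      intro h
      rw [h, Finset.card_singleton] at hw
      omega
    have hx : x ≠ 1 := by
      rintro rfl
      rw [orderOf_one] at hw
      simp at hw
    have hX : ∀ p ∈ (Fintype.card G).primeFactors,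
        (if p ∣ orderOf x ∧ 2 ≤ #(orderOf x).primeFactors then (2 : ℤ) else 0) =
          if p ∣ orderOf x then (2 : ℤ) else 0 := by
      intro p _
      simp only [hw, and_true]
    rw [Finset.sum_congr rfl hZ, Finset.sum_congr rfl hX, Finset.sum_const_zero, if_neg hx,
      if_pos hw, ← Finset.sum_filter, Finset.sum_const,
      Nat.primeFactors_filter_dvd_of_dvd hN0 orderOf_dvd_card, nsmul_eq_mul]
    have := hs x hw
    linarith

theorem global (s : ℤ)
    (hs : ∀ x : G, 2 ≤ #(orderOf x).primeFactors →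
      11 + 2 * (#(orderOf x).primeFactors : ℤ) + s ≤ orderOf x) :
    -10 + ∑ p ∈ (Fintype.card G).primeFactors,
        (∑ z ∈ Z G p, ((orderOf z : ℤ) - 11) + 2 * #(X G p)) +
      s * #{x : G | 2 ≤ #(orderOf x).primeFactors} ≤
      ∑ x : G, (orderOf x : ℤ) - 11 * Fintype.card G := by
  classical
  have h1 := Finset.sum_le_sum (s := (univ : Finset G)) fun x _ => pointwise s hs x
  rw [Finset.sum_add_distrib, Finset.sum_add_distrib, Finset.sum_comm,
    Finset.sum_sub_distrib] at h1
  have h2 : ∑ x : G, (if x = 1 then (-10 : ℤ) else 0) = -10 := by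
    rw [Finset.sum_ite_eq' univ (1 : G)]
    simp
  have h3 : ∀ p ∈ (Fintype.card G).primeFactors,
      ∑ x : G, ((if x ∈ Z G p then (orderOf x : ℤ) - 11 else 0) +
        (if x ∈ X G p then (2 : ℤ) else 0)) =
      ∑ z ∈ Z G p, ((orderOf z : ℤ) - 11) + 2 * #(X G p) := by
    intro p _
    rw [Finset.sum_add_distrib, Finset.sum_ite_mem, Finset.sum_ite_mem, Finset.univ_inter,
      Finset.univ_inter, Finset.sum_const, nsmul_eq_mul, mul_comm (2 : ℤ)]
  have h4 : ∑ x : G, (if 2 ≤ #(orderOf x).primeFactors then s else 0) =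
      s * #{x : G | 2 ≤ #(orderOf x).primeFactors} := by
    rw [← Finset.sum_filter, Finset.sum_const, nsmul_eq_mul, mul_comm]
  have h5 : ∑ _x : G, (11 : ℤ) = 11 * Fintype.card G := by
    rw [Finset.sum_const, Finset.card_univ, nsmul_eq_mul, mul_comm]
  rw [h2, h4, h5, Finset.sum_congr rfl h3] at h1
  exact h1

theorem local_nonneg (hG : Odd (Fintype.card G)) {p : ℕ} [hp : Fact p.Prime]
    (hd : p ∣ ∑ x : G, orderOf x) :
    0 ≤ ∑ z ∈ Z G p, ((orderOf z : ℤ) - 11) + 2 * #(X G p) := by
  have h1 : (∑ z ∈ Z G p, (#(Y p z) : ℤ)) ≤ #(X G p) := by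
    exact_mod_cast sum_card_Y_le (G := G) p
  have h2 : 0 ≤ ∑ z ∈ Z G p, ((orderOf z : ℤ) - 11 + 2 * #(Y p z)) := by
    apply Finset.sum_nonneg
    intro z hz
    obtain ⟨k, hk, hzk⟩ := exists_pow hz
    have h3 := eleven_le hG hzk hk hd
    have h4 : (11 : ℤ) ≤ orderOf z + 2 * #(Y p z) := by exact_mod_cast h3
    linarith
  rw [Finset.sum_add_distrib, ← Finset.mul_sum] at h2
  linarith

theorem local_five (hG : Odd (Fintype.card G)) (h5 : 5 ∣ Fintype.card G)
    (hd : 5 ∣ ∑ x : G, orderOf x) :
    12 ≤ ∑ z ∈ Z G 5, ((orderOf z : ℤ) - 11) + 2 * #(X G 5) := by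
  classical
  have : Fact (Nat.Prime 5) := ⟨Nat.prime_five⟩
  have h1 : (∑ z ∈ Z G 5, (#(Y 5 z) : ℤ)) ≤ #(X G 5) := by
    exact_mod_cast sum_card_Y_le (G := G) 5
  have h2 : ∑ z ∈ Z G 5, (6 : ℤ) ≤ ∑ z ∈ Z G 5, ((orderOf z : ℤ) - 11 + 2 * #(Y 5 z)) := by
    apply Finset.sum_le_sum
    intro z hz
    obtain ⟨k, hk, hzk⟩ := exists_pow hz
    have h3 := seventeen_le hG hzk hk hd
    have h4 : (17 : ℤ) ≤ orderOf z + 2 * #(Y 5 z) := by exact_mod_cast h3
    linarith
  obtain ⟨g, hg⟩ := exists_prime_orderOf_dvd_card 5 h5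
  have hg1 : g ≠ 1 := by
    rintro rfl
    rw [orderOf_one] at hg
    omega
  have h6 : 2 ≤ #(Z G 5) := by
    rw [← Finset.card_pair (inv_ne_self hG hg1).symm]
    apply Finset.card_le_card
    intro x hx
    rw [Finset.mem_insert, Finset.mem_singleton] at hx
    rw [mem_Z]
    rcases hx with rfl | rfl
    · rw [hg]
      exact Nat.Prime.primeFactors Nat.prime_five
    · rw [orderOf_inv, hg]
      exact Nat.Prime.primeFactors Nat.prime_five
  rw [Finset.sum_const, nsmul_eq_mul] at h2
  have h7 : (2 : ℤ) ≤ #(Z G 5) := by exact_mod_cast h6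
  rw [Finset.sum_add_distrib, ← Finset.mul_sum] at h2
  linarith

/-- The lower bound. -/
theorem eleven_lt (hG : Odd (Fintype.card G)) (hG1 : 1 < Fintype.card G)
    (hd : Fintype.card G ∣ ∑ x : G, orderOf x) :
    11 * (Fintype.card G : ℤ) < ∑ x : G, (orderOf x : ℤ) := by
  classical
  have hprime : ∀ p ∈ (Fintype.card G).primeFactors,
      0 ≤ ∑ z ∈ Z G p, ((orderOf z : ℤ) - 11) + 2 * #(X G p) := by
    intro p hp
    obtain ⟨h1, h2, _⟩ := Nat.mem_primeFactors.1 hp
    have : Fact p.Prime := ⟨h1⟩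
    exact local_nonneg hG (h2.trans hd)
  by_cases h5 : 5 ∣ Fintype.card G
  · have h1 := global (G := G) 0 (by
      intro x hx
      have h2 := le_five (orderOf_pos x).ne' (odd_orderOf hG x) hx
      have h3 : (11 + 2 * #(orderOf x).primeFactors : ℤ) ≤ orderOf x := by exact_mod_cast h2
      linarith)
    have h5S : 5 ∈ (Fintype.card G).primeFactors :=
      Nat.mem_primeFactors.2 ⟨Nat.prime_five, h5, Fintype.card_ne_zero⟩
    have h2 := Finset.single_le_sum hprime h5S
    have h3 := local_five hG h5 (h5.trans hd)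
    linarith
  · have h1 := global (G := G) 6 (by
      intro x hx
      have h2 := le_seven (orderOf_pos x).ne' (odd_orderOf hG x) hx
        (fun h => h5 (h.trans orderOf_dvd_card))
      have h3 : (17 + 2 * #(orderOf x).primeFactors : ℤ) ≤ orderOf x := by exact_mod_cast h2
      linarith)
    have h2 := Finset.sum_nonneg hprime
    obtain ⟨p, hp, hpd⟩ := Nat.exists_prime_and_dvd hG1.ne'
    have : Fact p.Prime := ⟨hp⟩
    obtain ⟨g, hg⟩ := exists_prime_orderOf_dvd_card p hpd
    have hgZ : g ∈ Z G p := by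
      rw [mem_Z, hg]
      exact Nat.Prime.primeFactors hp
    have hg1 : orderOf g = p ^ 1 := by rw [hg, pow_one]
    have h3 := card_Y_two hG hg1 (hpd.trans hd)
    have h4 := sum_card_Y_le (G := G) p
    have h6 : #(Y p g) ≤ ∑ z ∈ Z G p, #(Y p z) :=
      Finset.single_le_sum (f := fun z => #(Y p z)) (fun _ _ => Nat.zero_le _) hgZ
    have h7 : #(X G p) ≤ #{x : G | 2 ≤ #(orderOf x).primeFactors} := by
      apply Finset.card_le_card
      intro x hx
      rw [Finset.mem_filter]
      exact ⟨Finset.mem_univ _, (mem_X.1 hx).2⟩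
    have h8 : (2 : ℤ) ≤ #{x : G | 2 ≤ #(orderOf x).primeFactors} := by
      exact_mod_cast (h3.trans (h6.trans (h4.trans h7)))
    linarith

/-- The sum of the orders is odd. -/
theorem odd_sum : Odd (∑ x : G, orderOf x) := by
  classical
  rw [← Finset.add_sum_erase _ _ (Finset.mem_univ (1 : G)), orderOf_one]
  have h1 : ∑ x ∈ univ.erase (1 : G), (orderOf x : ZMod 2) = 0 := by
    apply Finset.sum_involution (fun x _ => x⁻¹)
    · intro x _
      rw [orderOf_inv]
      exact CharTwo.add_self_eq_zero _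
    · intro x hx hne h
      apply hne
      have h2 : x ^ 2 = 1 := by
        rw [pow_two]
        nth_rw 1 [← h]
        exact inv_mul_cancel x
      have h3 := orderOf_dvd_of_pow_eq_one h2
      rcases (Nat.dvd_prime Nat.prime_two).1 h3 with h4 | h4
      · exact absurd (orderOf_eq_one_iff.1 h4) (Finset.mem_erase.1 hx).1
      · rw [h4]
        decide
    · intro x _
      exact inv_inv x
    · intro x hx
      rw [Finset.mem_erase] at hx ⊢
      exact ⟨inv_ne_one.2 hx.1, Finset.mem_univ _⟩
  have h2 : Even (∑ x ∈ univ.erase (1 : G), orderOf x) := by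
    rw [even_iff_two_dvd, ← ZMod.natCast_eq_zero_iff]
    push_cast
    exact h1
  exact h2.one_add

/-- An integer average order greater than 1 is at least 13. -/
theorem thirteen_le (n : ℕ) (hn : ∑ x : G, orderOf x = n * Fintype.card G)
    (hG1 : 1 < Fintype.card G) : 13 ≤ n := by
  have h1 := odd_sum (G := G)
  rw [hn, Nat.odd_mul] at h1
  have h2 := eleven_lt h1.2 hG1 (by rw [hn]; exact dvd_mul_left _ _)
  have h3 : ((∑ x : G, orderOf x : ℕ) : ℤ) = ((n * Fintype.card G : ℕ) : ℤ) := by rw [hn]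
  push_cast at h3
  rw [h3] at h2
  have h4 : (0 : ℤ) < Fintype.card G := by exact_mod_cast (by omega : 0 < Fintype.card G)
  have h5 : (11 : ℤ) < n := lt_of_mul_lt_mul_right h2 h4.le
  obtain ⟨m, hm⟩ := h1.1
  have h6 : 11 < n := by exact_mod_cast h5
  omega

end

end Pool.Agent.LibAvg32
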