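import Mathlib

open Finset

namespace Pool.Agent.LibAvg32

/-! ### A weighted count for actions of finite p-groups -/

section Action

variable {p : ℕ} [hp : Fact p.Prime] {P : Type*} [Group P] {α : Type*} [MulAction P α]

/-- The pairs (x, i) with i < f x. -/
def Layer (f : α → ℕ) : Type _ := {q : α × ℕ // q.2 < f q.1}

/-- The layers as a dependent sum. -/
def layerEquiv (f : α → ℕ) : Layer f ≃ Σ x : α, Fin (f x) where
  toFun q := ⟨q.1.1, ⟨q.1.2, q.2⟩⟩
  invFun s := ⟨(s.1, s.2.1), s.2.2⟩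
  left_inv _ := rfl
  right_inv _ := rfl

theorem card_layer [Fintype α] (f : α → ℕ) : Nat.card (Layer f) = ∑ x : α, f x := by
  rw [Nat.card_congr (layerEquiv f), Nat.card_sigma]
  simp

theorem sum_modEq_fixed (hP : IsPGroup p P) [Fintype α] (f : α → ℕ)
    (hf : ∀ (g : P) (x : α), f (g • x) = f x) [DecidablePred fun x : α => ∀ g : P, g • x = x] :
    ∑ x : α, f x ≡ ∑ x ∈ univ.filter (fun x : α => ∀ g : P, g • x = x), f x [MOD p] := by
  classical
  let act : MulAction P (Layer f) :=
    { smul := fun g q => ⟨(g • q.1.1, q.1.2), by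
        show q.1.2 < f (g • q.1.1)
        rw [hf]
        exact q.2⟩
      one_smul := fun q => Subtype.ext (Prod.ext (one_smul P q.1.1) rfl)
      mul_smul := fun g h q => Subtype.ext (Prod.ext (mul_smul g h q.1.1) rfl) }
  have hfin : Finite (Layer f) := Finite.of_equiv _ (layerEquiv f).symm
  have h1 := hP.card_modEq_card_fixedPoints (Layer f)
  rw [card_layer] at h1
  refine h1.trans ?_
  have h2 : Nat.card (MulAction.fixedPoints P (Layer f)) =
      ∑ x ∈ univ.filter (fun x : α => ∀ g : P, g • x = x), f x := by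
    have e : MulAction.fixedPoints P (Layer f) ≃
        Σ x : {x : α // ∀ g : P, g • x = x}, Fin (f x.1) :=
      { toFun := fun q => ⟨⟨q.1.1.1, fun g => congrArg (fun r : Layer f => r.1.1) (q.2 g)⟩,
          ⟨q.1.1.2, q.1.2⟩⟩
        invFun := fun s => ⟨⟨(s.1.1, s.2.1), s.2.2⟩, fun g =>
          Subtype.ext (Prod.ext (s.1.2 g) rfl)⟩
        left_inv := fun _ => rfl
        right_inv := fun _ => rfl }
    rw [Nat.card_congr e, Nat.card_sigma]
    simp only [Nat.card_eq_fintype_card, Fintype.card_fin]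
    exact (Finset.sum_subtype _ (by simp) f).symm
  rw [h2]

end Action


/-! ### The congruence for centralizers -/

section Group

variable {G : Type*} [Group G] [Fintype G]

theorem orderOf_conj_eq (g x : G) : orderOf (g * x * g⁻¹) = orderOf x :=
  MulEquiv.orderOf_eq (MulAut.conj g) x

/-- The sum of the orders is, modulo p, the sum of the orders over the centralizer of any
p-subgroup. -/
theorem sum_modEq_centralizer [DecidableEq G] {p : ℕ} [hp : Fact p.Prime] (P : Subgroup G)
    (hP : IsPGroup p P) [DecidablePred fun x : G => ∀ g ∈ P, g * x = x * g] :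
    ∑ x : G, orderOf x ≡
      ∑ x ∈ univ.filter (fun x : G => ∀ g ∈ P, g * x = x * g), orderOf x [MOD p] := by
  classical
  set P' : Subgroup (ConjAct G) := P.map (ConjAct.toConjAct : G ≃* ConjAct G).toMonoidHom
    with hP'
  have h1 : IsPGroup p P' := hP.map _
  have h2 := sum_modEq_fixed (P := P') (α := G) h1 (fun x => orderOf x) (by
    rintro ⟨g, hg⟩ x
    rw [Subgroup.smul_def, ConjAct.smul_def]
    exact orderOf_conj_eq _ _)
  refine h2.trans ?_
  suffices h4 : (univ.filter fun x : G => ∀ g : P', g • x = x) =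
      univ.filter fun x : G => ∀ g ∈ P, g * x = x * g by rw [h4]
  apply Finset.filter_congr
  intro x _
  constructor
  · intro h g hg
    have h3 := h ⟨ConjAct.toConjAct g, Subgroup.mem_map_of_mem _ hg⟩
    rw [Subgroup.smul_def, ConjAct.smul_def] at h3
    simp only [ConjAct.ofConjAct_toConjAct] at h3
    exact mul_inv_eq_iff_eq_mul.1 h3
  · rintro h ⟨g', hg'⟩
    obtain ⟨g, hg, rfl⟩ := hg'
    rw [Subgroup.smul_def, ConjAct.smul_def]
    have h3 := h g hg
    show ConjAct.ofConjAct (ConjAct.toConjAct g) * x * (ConjAct.ofConjAct (ConjAct.toConjAct g))⁻¹ = x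
    simp only [ConjAct.ofConjAct_toConjAct]
    rw [h3]
    group

/-- The nontrivial elements of order prime to p commuting with z. -/
noncomputable def Y (p : ℕ) (z : G) : Finset G := by
  classical
  exact univ.filter fun y => z * y = y * z ∧ y ≠ 1 ∧ ¬ p ∣ orderOf y

theorem mem_Y {p : ℕ} {z y : G} : y ∈ Y p z ↔ z * y = y * z ∧ y ≠ 1 ∧ ¬ p ∣ orderOf y := by
  classical
  unfold Y
  simp

theorem isPGroup_zpowers {p k : ℕ} [hp : Fact p.Prime] {z : G} (hz : orderOf z = p ^ k) :
    IsPGroup p (Subgroup.zpowers z) := by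
  apply IsPGroup.of_card (n := k)
  rw [Nat.card_zpowers, hz]

/-- The sum of the orders of the elements of Y is -1 modulo p. -/
theorem sum_Y {p k : ℕ} [hp : Fact p.Prime] {z : G} (hz : orderOf z = p ^ k)
    (hG : p ∣ ∑ x : G, orderOf x) : p ∣ 1 + ∑ y ∈ Y p z, orderOf y := by
  classical
  have h1 := sum_modEq_centralizer (Subgroup.zpowers z) (isPGroup_zpowers hz)
  have h2 : p ∣ ∑ x ∈ univ.filter (fun x : G => ∀ g ∈ Subgroup.zpowers z, g * x = x * g),
      orderOf x := (h1.dvd_iff dvd_rfl).1 hG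
  have h3 : (univ.filter fun x : G => ∀ g ∈ Subgroup.zpowers z, g * x = x * g) =
      univ.filter fun x : G => z * x = x * z := by
    apply Finset.filter_congr
    intro x _
    constructor
    · intro h
      exact h z (Subgroup.mem_zpowers z)
    · intro h g hg
      obtain ⟨n, rfl⟩ := Subgroup.mem_zpowers_iff.1 hg
      exact ((show Commute z x from h).zpow_left n).eq
  rw [h3, ← Finset.sum_filter_add_sum_filter_not _ (fun x : G => p ∣ orderOf x)] at h2
  have h4 : p ∣ ∑ x ∈ (univ.filter fun x : G => z * x = x * z).filter (fun x => p ∣ orderOf x),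
      orderOf x := Finset.dvd_sum fun x hx => (Finset.mem_filter.1 hx).2
  have h5 := (Nat.dvd_add_right h4).1 h2
  have h6 : ((univ.filter fun x : G => z * x = x * z).filter fun x => ¬ p ∣ orderOf x) =
      insert 1 (Y p z) := by
    ext x
    rw [Finset.mem_insert, mem_Y, Finset.mem_filter, Finset.mem_filter]
    constructor
    · rintro ⟨⟨_, h⟩, h'⟩
      by_cases hx : x = 1
      · exact Or.inl hx
      · exact Or.inr ⟨h, hx, h'⟩
    · rintro (rfl | ⟨h, _, h'⟩)
      · refine ⟨⟨Finset.mem_univ _, by simp⟩, ?_⟩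
        rw [orderOf_one]
        exact hp.out.one_lt.not_ge ∘ Nat.le_of_dvd one_pos
      · exact ⟨⟨Finset.mem_univ _, h⟩, h'⟩
  rw [h6, Finset.sum_insert (by rw [mem_Y]; exact fun h => h.2.1 rfl), orderOf_one] at h5
  exact h5

theorem card_Y_ge {p : ℕ} {z y : G} (hy : y ∈ Y p z) : orderOf y - 1 ≤ #(Y p z) := by
  classical
  obtain ⟨h1, h2, h3⟩ := mem_Y.1 hy
  have h4 : #((Finset.range (orderOf y)).erase 0) = orderOf y - 1 := by
    rw [Finset.card_erase_of_mem (Finset.mem_range.2 (orderOf_pos y)), Finset.card_range]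
  rw [← h4]
  apply Finset.card_le_card_of_injOn (fun k => y ^ k)
  · intro k hk
    have hk' := Finset.mem_erase.1 (Finset.mem_coe.1 hk)
    refine Finset.mem_coe.2 (mem_Y.2 ⟨?_, ?_, ?_⟩)
    · exact ((show Commute z y from h1).pow_right k).eq
    · intro h
      have h5 := orderOf_dvd_of_pow_eq_one h
      have h6 := Nat.le_of_dvd (Nat.pos_of_ne_zero hk'.1) h5
      have h7 := Finset.mem_range.1 hk'.2
      omega
    · intro h
      exact h3 (h.trans (orderOf_pow_dvd k))
  · intro a ha b hb hab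
    have ha' := Finset.mem_range.1 (Finset.mem_erase.1 (Finset.mem_coe.1 ha)).2
    have hb' := Finset.mem_range.1 (Finset.mem_erase.1 (Finset.mem_coe.1 hb)).2
    exact pow_injOn_Iio_orderOf ha' hb' hab

theorem odd_orderOf (hG : Odd (Fintype.card G)) (x : G) : Odd (orderOf x) :=
  hG.of_dvd_nat (orderOf_dvd_card)

theorem inv_ne_self (hG : Odd (Fintype.card G)) {x : G} (hx : x ≠ 1) : x⁻¹ ≠ x := by
  intro h
  have h1 : x ^ 2 = 1 := by
    rw [pow_two]
    nth_rw 1 [← h]
    exact inv_mul_cancel x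
  have h2 := orderOf_dvd_of_pow_eq_one h1
  have h3 := odd_orderOf hG x
  have h4 := (Nat.dvd_prime Nat.prime_two).1 h2
  rcases h4 with h4 | h4
  · exact hx (orderOf_eq_one_iff.1 h4)
  · rw [h4] at h3
    exact absurd h3 (by decide)

theorem even_card_Y (hG : Odd (Fintype.card G)) (p : ℕ) (z : G) : Even #(Y p z) := by
  classical
  have h1 : ∑ _y ∈ Y p z, (1 : ZMod 2) = 0 := by
    apply Finset.sum_involution (fun y _ => y⁻¹)
    · intro y _
      decide
    · intro y hy _
      exact inv_ne_self hG (mem_Y.1 hy).2.1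
    · intro y _
      exact inv_inv y
    · intro y hy
      obtain ⟨h1, h2, h3⟩ := mem_Y.1 hy
      refine mem_Y.2 ⟨?_, inv_ne_one.2 h2, ?_⟩
      · exact ((show Commute z y from h1).inv_right).eq
      · rwa [orderOf_inv]
  rw [Finset.sum_const, nsmul_eq_mul, mul_one] at h1
  rw [even_iff_two_dvd]
  exact (ZMod.natCast_eq_zero_iff _ 2).1 h1

theorem Y_nonempty {p k : ℕ} [hp : Fact p.Prime] {z : G} (hz : orderOf z = p ^ k)
    (hG : p ∣ ∑ x : G, orderOf x) : (Y p z).Nonempty := by
  rw [Finset.nonempty_iff_ne_empty]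
  intro h
  have h1 := sum_Y hz hG
  rw [h, Finset.sum_empty, add_zero] at h1
  exact hp.out.one_lt.not_ge (Nat.le_of_dvd one_pos h1)

theorem orderOf_Y_ge (hG : Odd (Fintype.card G)) {p : ℕ} {z y : G} (hy : y ∈ Y p z) :
    3 ≤ orderOf y := by
  have h1 := odd_orderOf hG y
  have h2 : orderOf y ≠ 1 := fun h => (mem_Y.1 hy).2.1 (orderOf_eq_one_iff.1 h)
  have h3 := orderOf_pos y
  obtain ⟨m, hm⟩ := h1
  omega

theorem card_Y_two (hG : Odd (Fintype.card G)) {p k : ℕ} [hp : Fact p.Prime] {z : G}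
    (hz : orderOf z = p ^ k) (hd : p ∣ ∑ x : G, orderOf x) : 2 ≤ #(Y p z) := by
  obtain ⟨y, hy⟩ := Y_nonempty hz hd
  have h1 := card_Y_ge hy
  have h2 := orderOf_Y_ge hG hy
  omega

theorem card_Y_three (hG : Odd (Fintype.card G)) {k : ℕ} {z : G}
    (hz : orderOf z = 3 ^ k) (hd : 3 ∣ ∑ x : G, orderOf x) : 4 ≤ #(Y 3 z) := by
  have : Fact (Nat.Prime 3) := ⟨Nat.prime_three⟩
  obtain ⟨y, hy⟩ := Y_nonempty hz hd
  have h1 := card_Y_ge hy
  have h2 := orderOf_Y_ge hG hy
  have h3 := (mem_Y.1 hy).2.2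
  obtain ⟨m, hm⟩ := odd_orderOf hG y
  omega

theorem card_Y_five (hG : Odd (Fintype.card G)) {k : ℕ} {z : G}
    (hz : orderOf z = 5 ^ k) (hd : 5 ∣ ∑ x : G, orderOf x) : 6 ≤ #(Y 5 z) := by
  have : Fact (Nat.Prime 5) := ⟨Nat.prime_five⟩
  by_cases h : ∃ y ∈ Y 5 z, 7 ≤ orderOf y
  · obtain ⟨y, hy, h7⟩ := h
    have h1 := card_Y_ge hy
    omega
  · push Not at h
    have h1 : ∀ y ∈ Y 5 z, orderOf y = 3 := by
      intro y hy
      have h2 := orderOf_Y_ge hG hy
      have h3 := (mem_Y.1 hy).2.2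
      have h4 := h y hy
      obtain ⟨m, hm⟩ := odd_orderOf hG y
      omega
    have h2 := sum_Y hz hd
    rw [Finset.sum_congr rfl h1, Finset.sum_const, smul_eq_mul] at h2
    obtain ⟨m, hm⟩ := even_card_Y hG 5 z
    omega

/-- The main local estimate. -/
theorem eleven_le (hG : Odd (Fintype.card G)) {p k : ℕ} [hp : Fact p.Prime] {z : G}
    (hz : orderOf z = p ^ k) (hk : k ≠ 0) (hd : p ∣ ∑ x : G, orderOf x) :
    11 ≤ orderOf z + 2 * #(Y p z) := by
  have h0 : p ≤ orderOf z := by
    rw [hz]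
    exact Nat.le_self_pow hk p
  have h2 := card_Y_two hG hz hd
  have hodd : Odd (p ^ k) := by
    rw [← hz]
    exact odd_orderOf hG z
  have hpodd : Odd p := by
    rcases (Nat.odd_pow_iff hk).1 hodd with h
    exact h
  obtain ⟨m, hm⟩ := hpodd
  have hpp := hp.out.two_le
  by_cases h3 : p = 3
  · subst h3
    have := card_Y_three hG hz hd
    omega
  by_cases h5 : p = 5
  · subst h5
    have := card_Y_five hG hz hd
    omega
  omega

theorem seventeen_le (hG : Odd (Fintype.card G)) {k : ℕ} {z : G}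
    (hz : orderOf z = 5 ^ k) (hk : k ≠ 0) (hd : 5 ∣ ∑ x : G, orderOf x) :
    17 ≤ orderOf z + 2 * #(Y 5 z) := by
  have h0 : 5 ≤ orderOf z := by
    rw [hz]
    exact Nat.le_self_pow hk 5
  have := card_Y_five hG hz hd
  omega

end Group

end Pool.Agent.LibAvg32
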